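import Pool.Agent.BetaK.Check

/-!
# A tournament with `α_k(T) < β_k(T)`

An explicit 11-arc-strong tournament on 60 vertices for which the least number of arcs of a
spanning subdigraph with all in-degrees and out-degrees at least 11 is 702, while every
11-arc-strong spanning subdigraph has at least 703 arcs.
-/

set_option autoImplicit false
set_option maxRecDepth 100000

namespace Pool.Agent.Results.MP_067e91_lc.BetaExceedsAlpha

open Pool.Agent.BetaK

theorem lower_alpha {D : Finset (Fin 60 × Fin 60)} (hD : D ⊆ arcsOf rowsT)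
    (h : MinDeg 11 D) : 702 ≤ D.card := by
  have h1 := dual_bound hD h setA setB ∅ (by simp) (by simp)
  rw [card_setA, card_setB, eT_AB] at h1
  simp only [Finset.card_empty] at h1
  omega

theorem lower_beta {D : Finset (Fin 60 × Fin 60)} (hD : D ⊆ arcsOf rowsT)
    (h : ArcStrong 11 D) : 703 ≤ D.card := by
  have hX : setX.Nonempty := ⟨29, by rw [mem_setX]; rfl⟩
  have hX' : setX ≠ Finset.univ := by
    intro he
    have h1 : (30 : Fin 60) ∈ setX := by rw [he]; exact Finset.mem_univ _
    rw [mem_setX] at h1
    exact absurd h1 (by decide)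
  have h1 := cut_of_arcStrong h hX hX'
  have h2 : leaving D setX ⊆ leaving (arcsOf rowsT) setX := Finset.filter_subset_filter _ hD
  have h3 : leaving D setX = leaving (arcsOf rowsT) setX :=
    Finset.eq_of_subset_of_card_le h2 (by rw [leaving_X]; exact h1)
  have h4 : ((29 : Fin 60), (30 : Fin 60)) ∈ D := by
    have h5 := special_mem
    rw [← h3] at h5
    exact (Finset.mem_filter.1 h5).1
  have h6 := dual_bound hD (minDeg_of_arcStrong h (by simp)) setA setB {(29, 30)}
    (Finset.singleton_subset_iff.2 h4)
    (by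
      intro a ha
      rw [Finset.mem_singleton] at ha
      subst ha
      simp [setA, setB, inA, inB])
  rw [card_setA, card_setB, eT_AB] at h6
  simp only [Finset.card_singleton] at h6
  omega

/-- There is an 11-arc-strong tournament `T` on 60 vertices with `α_11(T) = 702` and
`β_11(T) = 703`. -/
theorem result : ∃ T : Finset (Fin 60 × Fin 60),
    IsTournament T ∧ ArcStrong 11 T ∧ alpha 11 T = 702 ∧ beta 11 T = 703 := by
  refine ⟨arcsOf rowsT, isTournament_T, arcStrong_B.mono (by norm_num) sub_B, ?_, ?_⟩
  · refine le_antisymm (Nat.sInf_le ⟨arcsOf rowsA, sub_A, minDeg_A, card_A⟩) ?_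
    refine le_csInf ⟨702, arcsOf rowsA, sub_A, minDeg_A, card_A⟩ ?_
    rintro m ⟨D, hD, hdeg, rfl⟩
    exact lower_alpha hD hdeg
  · refine le_antisymm (Nat.sInf_le ⟨arcsOf rowsB, sub_B, arcStrong_B, card_B⟩) ?_
    refine le_csInf ⟨703, arcsOf rowsB, sub_B, arcStrong_B, card_B⟩ ?_
    rintro m ⟨D, hD, hstr, rfl⟩
    exact lower_beta hD hstr

end Pool.Agent.Results.MP_067e91_lc.BetaExceedsAlpha
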